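import Pool.Agent.H49.KT.UTargets

/-!
kt2 module CD (MP_5e53ef_lc): numbers of the symbols of one stack.
-/

namespace Pool.Agent.H34.KT

open Turing Function
open Pool.Agent.H49.KT Pool.Agent.H49.KT.Uni

theorem bool_inj_cases (f : Bool → Bool) (hf : Injective f) :
    ∃ ng : Bool, ∀ b, b = (f b != ng) := by
  refine ⟨!(f true), ?_⟩
  have h : f true ≠ f false := fun h => Bool.noConfusion (hf h)
  intro b
  cases h1 : f true <;> cases h2 : f false <;> cases b <;> simp_all

theorem toNat_ne_zero (b : Bool) : (b.toNat != 0) = b := by
  cases b <;> rfl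

theorem toNat_inj {a b : Bool} (h : a.toNat = b.toNat) : a = b := by
  cases a <;> cases b <;> simp_all

theorem pf_CD : T_SYF → T_CD := by
  intro hS V k
  by_cases h0 : V.tm.k₀ = k
  · subst h0
    have hng : ∃ ng : Bool, ∀ h : V.tm.k₁ = V.tm.k₀, ∀ g : V.tm.Γ V.tm.k₁,
        V.outputAlphabet g = (V.inputAlphabet (h ▸ g) != ng) := by
      by_cases h1 : V.tm.k₁ = V.tm.k₀
      · have hcast : Injective (fun g : V.tm.Γ V.tm.k₁ => (h1 ▸ g : V.tm.Γ V.tm.k₀)) := by
          intro a b hab
          have : ∀ (k : V.tm.K) (h : V.tm.k₁ = k) (a b : V.tm.Γ V.tm.k₁),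
              (h ▸ a : V.tm.Γ k) = h ▸ b → a = b := by
            intro k h a b hab
            subst h
            exact hab
          exact this _ h1 a b hab
        obtain ⟨ng, hng⟩ := bool_inj_cases
          (fun b => V.inputAlphabet (h1 ▸ V.outputAlphabet.symm b)) (by
            intro a b hab
            exact V.outputAlphabet.symm.injective (hcast (V.inputAlphabet.injective hab)))
        refine ⟨ng, fun h g => ?_⟩
        have := hng (V.outputAlphabet g)
        rw [Equiv.symm_apply_apply] at this
        exact this
      · exact ⟨false, fun h => absurd h h1⟩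
    obtain ⟨ng, hng⟩ := hng
    refine ⟨fun g => (V.inputAlphabet g).toNat, 2, ng, ?_, ?_, ?_, ?_⟩
    · intro g g' _ _ h
      exact V.inputAlphabet.injective (toNat_inj h)
    · intro g _
      exact Bool.toNat_lt _
    · intro _ g
      rfl
    · intro h g
      rw [toNat_ne_zero]
      exact hng h g
  · by_cases h1 : V.tm.k₁ = k
    · subst h1
      refine ⟨fun g => (V.outputAlphabet g).toNat, 2, false, ?_, ?_, ?_, ?_⟩
      · intro g g' _ _ h
        exact V.outputAlphabet.injective (toNat_inj h)
      · intro g _
        exact Bool.toNat_lt _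
      · intro h
        exact absurd h h0
      · intro _ g
        show V.outputAlphabet g = (((V.outputAlphabet g).toNat != 0) != false)
        rw [toNat_ne_zero]
        cases V.outputAlphabet g <;> rfl
    · classical
      obtain ⟨A, hA⟩ := hS V k
      refine ⟨fun g => A.idxOf g, A.length, false, ?_, ?_, ?_, ?_⟩
      · intro g g' hg _ h
        exact (List.idxOf_inj (hA g hg)).1 h
      · intro g hg
        exact List.idxOf_lt_length_iff.2 (hA g hg)
      · intro h
        exact absurd h h0
      · intro h
        exact absurd h h1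

end Pool.Agent.H34.KT
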