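import Pool.Agent.H49.KT.UTargets

/-!
kt2 module QS (MP_5e53ef_lc): statements occurring in the program of a machine.
-/

namespace Pool.Agent.H34.KT

open Turing Function
open Pool.Agent.H49.KT Pool.Agent.H49.KT.Uni

theorem pf_QS : T_QS := by
  intro V
  refine ⟨fun l => ⟨l, TM2.stmts₁_self⟩, ?_, ?_, ?_, ?_, ?_, ?_⟩
  · rintro k f q ⟨l, h⟩
    refine ⟨l, TM2.stmts₁_trans h ?_⟩
    simp only [TM2.stmts₁, Finset.mem_insert]
    exact Or.inr TM2.stmts₁_self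
  · rintro k f q ⟨l, h⟩
    refine ⟨l, TM2.stmts₁_trans h ?_⟩
    simp only [TM2.stmts₁, Finset.mem_insert]
    exact Or.inr TM2.stmts₁_self
  · rintro k f q ⟨l, h⟩
    refine ⟨l, TM2.stmts₁_trans h ?_⟩
    simp only [TM2.stmts₁, Finset.mem_insert]
    exact Or.inr TM2.stmts₁_self
  · rintro f q ⟨l, h⟩
    refine ⟨l, TM2.stmts₁_trans h ?_⟩
    simp only [TM2.stmts₁, Finset.mem_insert]
    exact Or.inr TM2.stmts₁_self
  · rintro p q₁ q₂ ⟨l, h⟩
    refine ⟨⟨l, TM2.stmts₁_trans h ?_⟩, ⟨l, TM2.stmts₁_trans h ?_⟩⟩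
    · simp only [TM2.stmts₁, Finset.mem_insert, Finset.mem_union]
      exact Or.inr (Or.inl TM2.stmts₁_self)
    · simp only [TM2.stmts₁, Finset.mem_insert, Finset.mem_union]
      exact Or.inr (Or.inr TM2.stmts₁_self)
  · classical
    have : Fintype V.tm.Λ := V.tm.ΛFin
    refine ⟨(Finset.univ.biUnion (fun l => TM2.stmts₁ (V.tm.m l))).toList, ?_⟩
    rintro q ⟨l, h⟩
    rw [Finset.mem_toList, Finset.mem_biUnion]
    exact ⟨l, Finset.mem_univ _, h⟩

end Pool.Agent.H34.KT
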