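import Pool.Agent.H49.KT.UTargets

/-!
kt2 module SCH (MP_5e53ef_lc): there is a numbering scheme for every machine.
-/

namespace Pool.Agent.H34.KT

open Turing Function
open Pool.Agent.H49.KT Pool.Agent.H49.KT.Uni

theorem mul_add_inj {s i j x y : ℕ} (hx : x < s) (hy : y < s) (h : i * s + x = j * s + y) :
    i = j ∧ x = y := by
  have hs : 0 < s := by omega
  have hi : (i * s + x) / s = i := by
    rw [Nat.add_comm, Nat.add_mul_div_right _ _ hs, Nat.div_eq_of_lt hx, Nat.zero_add]
  have hj : (j * s + y) / s = j := by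
    rw [Nat.add_comm, Nat.add_mul_div_right _ _ hs, Nat.div_eq_of_lt hy, Nat.zero_add]
  have hij : i = j := by rw [← hi, ← hj, h]
  subst hij
  exact ⟨rfl, by omega⟩

theorem exists_equiv (K : Type) [Fintype K] [DecidableEq K] (k : K) :
    ∃ (n : ℕ) (e : K ≃ Fin (n + 1)), e k = 0 := by
  obtain ⟨n, hn⟩ : ∃ n, Fintype.card K = n + 1 :=
    ⟨Fintype.card K - 1, by have := Fintype.card_pos_iff.2 ⟨k⟩; omega⟩
  let e₀ : K ≃ Fin (n + 1) := Fintype.equivFinOfCardEq hn
  refine ⟨n, e₀.trans (Equiv.swap (e₀ k) 0), ?_⟩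
  rw [Equiv.trans_apply, Equiv.swap_apply_left]

theorem pf_SCH : T_QS → T_CD → T_SCH := by
  intro hQ hC V
  classical
  have hK : Fintype V.tm.K := V.tm.kFin
  have hσ : Fintype V.tm.σ := V.tm.σFin
  obtain ⟨-, -, -, -, -, -, A, hA⟩ := hQ V
  have hC' := hC V
  choose c M ng h1 h2 h3 h4 using hC'
  obtain ⟨n, e, he⟩ := exists_equiv V.tm.K V.tm.k₁
  let ix : V.tm.σ → ℕ := fun a => (Fintype.equivFin V.tm.σ a : ℕ)
  have hix : ∀ a, ix a < Fintype.card V.tm.σ := fun a => (Fintype.equivFin V.tm.σ a).isLt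
  have hixi : Injective ix := fun a b h => (Fintype.equivFin V.tm.σ).injective (Fin.ext h)
  refine ⟨{ cd := c
            M := ∑ k, M k
            ng := ng V.tm.k₁
            n := n
            e := e
            N := 2 + (A.length + 1) * Fintype.card V.tm.σ
            st := fun q a => 2 + (A.idxOf q * Fintype.card V.tm.σ + ix a)
            cd_inj := h1
            cd_lt := ?_
            cd_in := fun g => h3 V.tm.k₀ rfl g
            cd_out := fun g => h4 V.tm.k₁ rfl g
            e_k₁ := he
            st_inj := ?_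
            st_lt := ?_
            st_ge := ?_ }⟩
  · intro k g hg
    exact lt_of_lt_of_le (h2 k g hg) (Finset.single_le_sum (f := M) (fun _ _ => Nat.zero_le _)
      (Finset.mem_univ k))
  · intro q q' a a' hq hq' h
    have h5 := mul_add_inj (hix a) (hix a') (Nat.add_left_cancel h)
    exact ⟨(List.idxOf_inj (hA q hq)).1 h5.1, hixi h5.2⟩
  · intro q a hq
    have h5 : A.idxOf q ≤ A.length := List.idxOf_le_length
    have h6 := hix a
    have h7 := Nat.mul_le_mul_right (Fintype.card V.tm.σ) h5
    have h8 : (A.length + 1) * Fintype.card V.tm.σ =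
      A.length * Fintype.card V.tm.σ + Fintype.card V.tm.σ := by ring
    rw [h8]
    omega
  · intro q a
    exact Nat.le_add_right _ _

end Pool.Agent.H34.KT
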